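import Mathlib

set_option autoImplicit false

namespace Pool.Agent.W_MP_fd6526_gt

open MeasureTheory FourierTransform SchwartzMap
open scoped ENNReal ContDiff

variable {E : Type*} [NormedAddCommGroup E] [InnerProductSpace ℝ E] [FiniteDimensional ℝ E]
  [MeasurableSpace E] [BorelSpace E]

/-- For `f ∈ L¹ ∩ L²` the `L²` Fourier transform is a.e. the Fourier integral. -/
theorem fourier_toLp_ae_eq (f : E → ℂ) (hf1 : Integrable f) (hf2 : MemLp f 2) :
    ((𝓕 (hf2.toLp f) : Lp (α := E) ℂ 2 volume) : E → ℂ) =ᵐ[volume] 𝓕 f := by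
  have hcont : Continuous (𝓕 f) :=
    VectorFourier.fourierIntegral_continuous Real.continuous_fourierChar
      (L := innerₗ E) (by exact continuous_inner) hf1
  refine ae_eq_of_integral_contDiff_smul_eq ((Lp.memLp _).locallyIntegrable (by norm_num))
    hcont.locallyIntegrable ?_
  intro g hg hgc
  have hg₁ : HasCompactSupport (Complex.ofRealCLM ∘ g) := hgc.comp_left rfl
  have hg₂ : ContDiff ℝ ∞ (Complex.ofRealCLM ∘ g) := by fun_prop
  set φ : 𝓢(E, ℂ) := hg₁.toSchwartzMap hg₂ with hφ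
  have hφg : ∀ x, φ x = (g x : ℂ) := fun x => rfl
  have h1 : (∫ x, g x • ((𝓕 (hf2.toLp f) : Lp (α := E) ℂ 2 volume) : E → ℂ) x)
      = Lp.toTemperedDistribution (𝓕 (hf2.toLp f) : Lp (α := E) ℂ 2 volume) φ := by
    rw [Lp.toTemperedDistribution_apply]
    refine integral_congr_ae (Filter.Eventually.of_forall fun x => ?_)
    simp [hφg]
  have h2 : Lp.toTemperedDistribution (𝓕 (hf2.toLp f) : Lp (α := E) ℂ 2 volume) φ
      = Lp.toTemperedDistribution (hf2.toLp f : Lp (α := E) ℂ 2 volume) (𝓕 φ) := by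
    rw [← Lp.fourier_toTemperedDistribution_eq]
    rfl
  have h3 : Lp.toTemperedDistribution (hf2.toLp f : Lp (α := E) ℂ 2 volume) (𝓕 φ)
      = ∫ x, (𝓕 φ) x • f x := by
    rw [Lp.toTemperedDistribution_apply]
    refine integral_congr_ae ?_
    filter_upwards [hf2.coeFn_toLp] with x hx
    rw [hx]
  have h4 : (∫ x, (𝓕 φ) x • f x) = ∫ x, φ x • 𝓕 f x := by
    have := VectorFourier.integral_fourierIntegral_smul_eq_flip (μ := volume) (ν := volume)
      (L := innerₗ E) Real.continuous_fourierChar (by exact continuous_inner)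
      (f := (φ : E → ℂ)) (g := f) φ.integrable hf1
    rw [flip_innerₗ] at this
    exact this
  rw [h1, h2, h3, h4]
  refine integral_congr_ae (Filter.Eventually.of_forall fun x => ?_)
  simp [hφg]

/-- Plancherel for `f ∈ L¹ ∩ L²`. -/
theorem lintegral_fourier_sq (f : E → ℂ) (hf1 : Integrable f) (hf2 : MemLp f 2) :
    ∫⁻ ξ, ‖𝓕 f ξ‖ₑ ^ 2 = ∫⁻ x, ‖f x‖ₑ ^ 2 := by
  have h : ‖(𝓕 (hf2.toLp f) : Lp (α := E) ℂ 2 volume)‖ = ‖(hf2.toLp f : Lp (α := E) ℂ 2 volume)‖ :=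
    Lp.norm_fourier_eq _
  have h1 : ∫⁻ ξ, ‖𝓕 f ξ‖ₑ ^ 2
      = ∫⁻ ξ, ‖((𝓕 (hf2.toLp f) : Lp (α := E) ℂ 2 volume) : E → ℂ) ξ‖ₑ ^ 2 := by
    refine lintegral_congr_ae ?_
    filter_upwards [fourier_toLp_ae_eq f hf1 hf2] with x hx
    rw [hx]
  have h2 : ∫⁻ x, ‖f x‖ₑ ^ 2 = ∫⁻ x, ‖((hf2.toLp f : Lp (α := E) ℂ 2 volume) : E → ℂ) x‖ₑ ^ 2 := by
    refine lintegral_congr_ae ?_
    filter_upwards [hf2.coeFn_toLp] with x hx
    rw [hx]
  rw [h1, h2]
  have key : ∀ g : Lp (α := E) ℂ 2 volume, ∫⁻ x, ‖(g : E → ℂ) x‖ₑ ^ 2 = ‖g‖ₑ ^ 2 := by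
    intro g
    rw [Lp.enorm_def, eLpNorm_eq_lintegral_rpow_enorm_toReal (by norm_num) (by norm_num)]
    rw [← ENNReal.rpow_natCast, ← ENNReal.rpow_mul]
    norm_num
  rw [key, key]
  rw [← ofReal_norm, ← ofReal_norm, h]

end Pool.Agent.W_MP_fd6526_gt
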