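import Mathlib

set_option autoImplicit false

namespace Pool.Agent.W_MP_fd6526_gt

open MeasureTheory Set
open scoped ENNReal

variable {E : Type*} [NormedAddCommGroup E] [InnerProductSpace ℝ E]

/-- The radial function `ρ_M(x) = sup {t ≥ 0 : t x ∈ M}`. -/
noncomputable def radialFn (M : Set E) (x : E) : ℝ := sSup {t : ℝ | 0 ≤ t ∧ t • x ∈ M}

/-- The set of times for the translate `K - y`. -/
def times (K : Set E) (y x : E) : Set ℝ := {t : ℝ | 0 ≤ t ∧ t • x + y ∈ K}

theorem radialFn_translate (K : Set E) (y x : E) :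
    radialFn {z | z + y ∈ K} x = sSup (times K y x) := rfl

theorem times_bddAbove {K : Set E} (hK : IsCompact K) (y : E) {x : E} (hx : x ≠ 0) :
    BddAbove (times K y x) := by
  obtain ⟨R, hR⟩ := hK.isBounded.exists_norm_le
  refine ⟨(R + ‖y‖) / ‖x‖, fun t ht => ?_⟩
  rw [le_div_iff₀ (norm_pos_iff.2 hx)]
  have h1 := hR _ ht.2
  have h2 : t * ‖x‖ = ‖t • x‖ := by rw [norm_smul, Real.norm_eq_abs, abs_of_nonneg ht.1]
  rw [h2]
  calc ‖t • x‖ = ‖(t • x + y) - y‖ := by simp
    _ ≤ ‖t • x + y‖ + ‖y‖ := norm_sub_le _ _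
    _ ≤ R + ‖y‖ := by linarith

theorem times_closed {K : Set E} (hK : IsCompact K) (y x : E) : IsClosed (times K y x) := by
  have : times K y x = Ici 0 ∩ (fun t : ℝ => t • x + y) ⁻¹' K := rfl
  rw [this]
  exact isClosed_Ici.inter (hK.isClosed.preimage (by fun_prop))

theorem zero_mem_times {K : Set E} {y : E} (hy : y ∈ K) (x : E) : (0 : ℝ) ∈ times K y x :=
  ⟨le_rfl, by simpa using hy⟩

theorem sSup_mem_times {K : Set E} (hK : IsCompact K) {y x : E} (hy : y ∈ K) (hx : x ≠ 0) :
    sSup (times K y x) ∈ times K y x :=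
  (times_closed hK y x).csSup_mem ⟨0, zero_mem_times hy x⟩ (times_bddAbove hK y hx)

/-- Membership is governed by the radial function. -/
theorem mem_iff_le {K : Set E} (hK : IsCompact K) (hc : Convex ℝ K) {y x : E} (hy : y ∈ K)
    (hx : x ≠ 0) {r : ℝ} (hr : 0 ≤ r) : r • x + y ∈ K ↔ r ≤ sSup (times K y x) := by
  constructor
  · intro h
    exact le_csSup (times_bddAbove hK y hx) ⟨hr, h⟩
  · intro h
    set ρ := sSup (times K y x) with hρ
    have hm : ρ • x + y ∈ K := (sSup_mem_times hK hy hx).2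
    rcases eq_or_lt_of_le hr with h0 | h0
    · rw [← h0]; simpa using hy
    have hρ0 : 0 < ρ := lt_of_lt_of_le h0 h
    have := hc hy hm (a := 1 - r / ρ) (b := r / ρ)
      (by rw [sub_nonneg, div_le_one hρ0]; exact h) (by positivity) (by ring)
    convert! this using 1
    rw [smul_add, smul_smul, div_mul_cancel₀ _ hρ0.ne', sub_smul, one_smul]
    abel

theorem sSup_times_pos {K : Set E} (hK : IsCompact K) {y x : E} (hy : y ∈ interior K)
    (hx : x ≠ 0) : 0 < sSup (times K y x) := by
  have hcont : Continuous fun t : ℝ => t • x + y := by fun_prop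
  have h1 : (fun t : ℝ => t • x + y) ⁻¹' (interior K) ∈ nhds (0 : ℝ) :=
    (isOpen_interior.preimage hcont).mem_nhds (by simpa using hy)
  obtain ⟨ε, hε, hball⟩ := Metric.mem_nhds_iff.1 h1
  have h2 : (ε / 2) ∈ times K y x := by
    refine ⟨by positivity, interior_subset ?_⟩
    apply hball
    simp [abs_of_pos hε]
    linarith
  exact lt_of_lt_of_le (by positivity) (le_csSup (times_bddAbove hK y hx) h2)

/-- `∫_ρ^∞ q r^(-q-1) dr = ρ^(-q)`. -/
theorem lintegral_tail {q ρ : ℝ} (hq : 0 < q) (hρ : 0 < ρ) :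
    ∫⁻ r in Ioi ρ, ENNReal.ofReal (q * r ^ (-q - 1)) = ENNReal.ofReal (ρ ^ (-q)) := by
  rw [← ofReal_integral_eq_lintegral_ofReal]
  · rw [integral_const_mul, integral_Ioi_rpow_of_lt (by linarith) hρ]
    congr 1
    have : (-q - 1 + 1) = -q := by ring
    rw [this]
    field_simp
  · exact (integrableOn_Ioi_rpow_of_lt (by linarith) hρ).const_mul q
  · filter_upwards [self_mem_ae_restrict measurableSet_Ioi] with r hr
    have : 0 < r := hρ.trans hr
    positivity

variable [FiniteDimensional ℝ E] [MeasurableSpace E] [BorelSpace E]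

/-- The function `y ↦ ∫_0^∞ q r^(-q-1) 1[y + r x ∉ K] dr`. -/
noncomputable def layer (q : ℝ) (K : Set E) (x y : E) : ℝ≥0∞ :=
  ∫⁻ r in Ioi (0 : ℝ), ENNReal.ofReal (q * r ^ (-q - 1)) *
    ({z | z ∉ K} : Set E).indicator (fun _ => (1 : ℝ≥0∞)) (r • x + y)

theorem layer_eq {q : ℝ} (hq : 0 < q) {K : Set E} (hK : IsCompact K) (hc : Convex ℝ K)
    {x y : E} (hx : x ≠ 0) (hy : y ∈ interior K) :
    layer q K x y = ENNReal.ofReal ((radialFn {z | z + y ∈ K} x) ^ (-q)) := by
  rw [radialFn_translate]
  set ρ := sSup (times K y x) with hρ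
  have hρ0 : 0 < ρ := sSup_times_pos hK hy hx
  rw [← lintegral_tail hq hρ0]
  rw [layer, ← lintegral_indicator measurableSet_Ioi, ← lintegral_indicator measurableSet_Ioi]
  refine lintegral_congr fun r => ?_
  by_cases h0 : 0 < r
  · have h1 := mem_iff_le hK hc (interior_subset hy) hx h0.le (r := r)
    by_cases h2 : ρ < r
    · have h3 : r • x + y ∉ K := by rw [h1, not_le]; exact h2
      simp [Set.indicator, h0, h2, h3]
    · have h3 : r • x + y ∈ K := by rw [h1]; exact not_lt.1 h2
      simp [Set.indicator, h0, h2, h3]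
  · have h2 : ¬ ρ < r := by linarith
    simp [Set.indicator, h0, h2]

theorem measurable_kernel (q : ℝ) {K : Set E} (hK : IsCompact K) (x : E) :
    Measurable fun p : E × ℝ => ENNReal.ofReal (q * p.2 ^ (-q - 1)) *
      ({z | z ∉ K} : Set E).indicator (fun _ => (1 : ℝ≥0∞)) (p.2 • x + p.1) := by
  have h1 : Measurable fun p : E × ℝ => p.2 • x + p.1 :=
    (measurable_snd.smul_const x).add measurable_fst
  have h2 : MeasurableSet ({z | z ∉ K} : Set E) := hK.isClosed.measurableSet.compl
  refine Measurable.mul ?_ ?_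
  · exact ((measurable_snd.pow_const _).const_mul q).ennreal_ofReal
  · exact (measurable_const.indicator h2).comp h1

theorem measurable_layer (q : ℝ) {K : Set E} (hK : IsCompact K) (x : E) :
    Measurable (layer q K x) :=
  (measurable_kernel q hK x).lintegral_prod_right'

/-- The measure of `K \ (K - v)`. -/
noncomputable def defect (K : Set E) (v : E) : ℝ≥0∞ := volume {y | y ∈ K ∧ v + y ∉ K}

theorem lintegral_layer (q : ℝ) {K : Set E} (hK : IsCompact K) (x : E) :
    ∫⁻ y in K, layer q K x y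
      = ∫⁻ r in Ioi (0 : ℝ), ENNReal.ofReal (q * r ^ (-q - 1)) * defect K (r • x) := by
  unfold layer
  rw [lintegral_lintegral_swap (measurable_kernel q hK x).aemeasurable]
  refine lintegral_congr fun r => ?_
  have h2 : MeasurableSet ({z | z ∉ K} : Set E) := hK.isClosed.measurableSet.compl
  have h3 : Measurable fun y : E => ({z | z ∉ K} : Set E).indicator (fun _ => (1 : ℝ≥0∞))
      (r • x + y) := (measurable_const.indicator h2).comp (measurable_const_add _)
  rw [lintegral_const_mul _ h3]
  congr 1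
  have h4 : (fun y : E => ({z | z ∉ K} : Set E).indicator (fun _ => (1 : ℝ≥0∞)) (r • x + y))
      = ({y | r • x + y ∉ K} : Set E).indicator (fun _ => (1 : ℝ≥0∞)) := by
    funext y; simp [Set.indicator]
  rw [h4]
  have h5 : MeasurableSet ({y | r • x + y ∉ K} : Set E) := measurable_const_add (r • x) h2
  rw [lintegral_indicator h5]
  simp only [lintegral_const, one_mul, MeasurableSet.univ, Measure.restrict_apply, univ_inter]
  rw [Measure.restrict_apply h5, defect]
  congr 1
  ext y
  simp [and_comm]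

/-- Almost every point of a convex body is interior. -/
theorem ae_interior {K : Set E} (hK : IsCompact K) (hc : Convex ℝ K) :
    ∀ᵐ y ∂(volume.restrict K), y ∈ interior K := by
  have h : volume (frontier K) = 0 := hc.addHaar_frontier volume
  rw [ae_restrict_iff' hK.isClosed.measurableSet]
  have h' : ∀ᵐ y ∂(volume : Measure E), y ∉ frontier K := by
    rw [ae_iff]; simpa using h
  filter_upwards [h'] with y hy hyK
  by_contra hcon
  exact hy ⟨subset_closure hyK, hcon⟩

end Pool.Agent.W_MP_fd6526_gt
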