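import Mathlib
import Pool.Agent.W_MP_fd6526_gt.Plancherel
import Pool.Agent.W_MP_fd6526_gt.Radial

set_option autoImplicit false

namespace Pool.Agent.W_MP_fd6526_gt

open MeasureTheory Set FourierTransform
open scoped ENNReal RealInnerProductSpace

variable {E : Type*} [NormedAddCommGroup E] [InnerProductSpace ℝ E] [FiniteDimensional ℝ E]
  [MeasurableSpace E] [BorelSpace E]

/-- Complex indicator of `K`. -/
noncomputable def ind (K : Set E) : E → ℂ := K.indicator fun _ => (1 : ℂ)

/-- Spectral density `|hat 1_K|^2`. -/
noncomputable def spec (K : Set E) (ξ : E) : ℝ≥0∞ := ‖𝓕 (ind K) ξ‖ₑ ^ 2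

theorem integrable_ind {K : Set E} (hK : IsCompact K) : Integrable (ind K) := by
  rw [ind, integrable_indicator_iff hK.isClosed.measurableSet]
  exact integrableOn_const hK.measure_lt_top.ne

theorem memLp_ind {K : Set E} (hK : IsCompact K) : MemLp (ind K) 2 volume :=
  memLp_indicator_const 2 hK.isClosed.measurableSet 1 (Or.inr hK.measure_lt_top.ne)

theorem continuous_fourier_ind {K : Set E} (hK : IsCompact K) : Continuous (𝓕 (ind K)) :=
  VectorFourier.fourierIntegral_continuous Real.continuous_fourierChar
      (L := innerₗ E) (by exact continuous_inner) (integrable_ind hK)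

theorem measurable_spec {K : Set E} (hK : IsCompact K) : Measurable (spec K) :=
  ((continuous_fourier_ind hK).measurable.enorm).pow_const 2

theorem integrable_comp_add {f : E → ℂ} (hf : Integrable f) (v : E) :
    Integrable (f ∘ fun y => y + v) := hf.comp_add_right v

theorem memLp_comp_add {f : E → ℂ} (hf : MemLp f 2 volume) (v : E) :
    MemLp (f ∘ fun y => y + v) 2 volume :=
  hf.comp_measurePreserving (measurePreserving_add_right volume v)

theorem fourier_diff {K : Set E} (hK : IsCompact K) (v ξ : E) :
    𝓕 (ind K - (ind K ∘ fun y => y + v)) ξ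
      = (1 - (Real.fourierChar ⟪v, ξ⟫ : ℂ)) * 𝓕 (ind K) ξ := by
  have h1 := VectorFourier.fourierIntegral_comp_add_right Real.fourierChar
    (volume : Measure E) (innerₗ E) (ind K) v
  have h2 : 𝓕 (ind K ∘ fun y => y + v) ξ = Real.fourierChar ⟪v, ξ⟫ • 𝓕 (ind K) ξ :=
    congrFun h1 ξ
  have hi := integrable_ind hK
  have h3 : 𝓕 (ind K - (ind K ∘ fun y => y + v)) ξ
      = 𝓕 (ind K) ξ - 𝓕 (ind K ∘ fun y => y + v) ξ := by
    rw [Real.fourier_eq, Real.fourier_eq, Real.fourier_eq, ← integral_sub]
    · refine integral_congr_ae (Filter.Eventually.of_forall fun y => ?_)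
      simp only [Pi.sub_apply, smul_sub]
    · exact (Real.fourierIntegral_convergent_iff ξ).2 hi
    · exact (Real.fourierIntegral_convergent_iff ξ).2 (integrable_comp_add hi v)
  rw [h3, h2, Circle.smul_def, smul_eq_mul]
  ring

theorem enorm_one_sub_char (t : ℝ) :
    ‖(1 - (Real.fourierChar t : ℂ))‖ₑ ^ 2 = 2 * ENNReal.ofReal (1 - Real.cos (2 * Real.pi * t)) := by
  have h : ‖(1 - (Real.fourierChar t : ℂ))‖ ^ 2 = 2 * (1 - Real.cos (2 * Real.pi * t)) := by
    rw [Real.fourierChar_apply, ← Complex.normSq_eq_norm_sq, Complex.normSq_apply]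
    simp only [Complex.sub_re, Complex.one_re, Complex.sub_im, Complex.one_im]
    rw [Complex.exp_ofReal_mul_I_re, Complex.exp_ofReal_mul_I_im]
    nlinarith [Real.sin_sq_add_cos_sq (2 * Real.pi * t)]
  rw [← ofReal_norm, ← ENNReal.ofReal_pow (norm_nonneg _), h, ENNReal.ofReal_mul (by norm_num)]
  norm_num

/-- Spectral formula for the defect. -/
theorem defect_eq {K : Set E} (hK : IsCompact K) (v : E) :
    defect K v = ∫⁻ ξ, ENNReal.ofReal (1 - Real.cos (2 * Real.pi * ⟪v, ξ⟫)) * spec K ξ := by
  have hm : MeasurableSet K := hK.isClosed.measurableSet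
  have hm2 : MeasurableSet {y : E | v + y ∈ K} := measurable_const_add v hm
  set A : Set E := {y | y ∈ K ∧ v + y ∉ K} with hA
  set B : Set E := {y | y ∉ K ∧ v + y ∈ K} with hB
  set C : Set E := {y | y ∈ K ∧ v + y ∈ K} with hC
  have hAm : MeasurableSet A := hm.inter hm2.compl
  have hBm : MeasurableSet B := hm.compl.inter hm2
  have hCm : MeasurableSet C := hm.inter hm2
  have hvolK : volume K ≠ ∞ := hK.measure_lt_top.ne
  have hCfin : volume C ≠ ∞ := ne_top_of_le_ne_top hvolK (measure_mono fun y hy => hy.1)
  have e1 : volume K = volume A + volume C := by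
    rw [← measure_union _ hCm]
    · congr 1
      ext y
      simp only [hA, hC, mem_union, mem_ofPred_eq]
      tauto
    · rw [Set.disjoint_left]
      intro y hy hy'
      exact hy.2 hy'.2
  have e2 : volume K = volume B + volume C := by
    have : volume K = volume {y : E | v + y ∈ K} := by
      have h := (measurePreserving_add_left (volume : Measure E) v).measure_preimage
        hm.nullMeasurableSet
      exact h.symm
    rw [this, ← measure_union _ hCm]
    · congr 1
      ext y
      simp only [hB, hC, mem_union, mem_ofPred_eq]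
      tauto
    · rw [Set.disjoint_left]
      intro y hy hy'
      exact hy.1 hy'.1
  have e3 : volume B = volume A := by
    have : volume B + volume C = volume A + volume C := by rw [← e1, ← e2]
    exact (ENNReal.add_left_inj hCfin).1 this
  have hi := integrable_ind hK
  have hl := memLp_ind hK
  have hP := lintegral_fourier_sq (ind K - (ind K ∘ fun y => y + v))
    (hi.sub (integrable_comp_add hi v)) (hl.sub (memLp_comp_add hl v))
  have r1 : ∫⁻ y, ‖(ind K - (ind K ∘ fun y => y + v)) y‖ₑ ^ 2 = 2 * defect K v := by
    have : ∀ y, ‖(ind K - (ind K ∘ fun y => y + v)) y‖ₑ ^ 2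
        = A.indicator (fun _ => (1 : ℝ≥0∞)) y + B.indicator (fun _ => (1 : ℝ≥0∞)) y := by
      intro y
      simp only [ind, Pi.sub_apply, Function.comp_apply]
      rw [add_comm y v]
      by_cases h1 : y ∈ K <;> by_cases h2 : v + y ∈ K
      · have a : y ∉ A := fun h => h.2 h2
        have b : y ∉ B := fun h => h.1 h1
        rw [indicator_of_notMem a, indicator_of_notMem b, indicator_of_mem h1,
          indicator_of_mem h2]
        simp
      · have a : y ∈ A := ⟨h1, h2⟩
        have b : y ∉ B := fun h => h.1 h1
        rw [indicator_of_mem a, indicator_of_notMem b, indicator_of_mem h1,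
          indicator_of_notMem h2]
        simp
      · have a : y ∉ A := fun h => h1 h.1
        have b : y ∈ B := ⟨h1, h2⟩
        rw [indicator_of_notMem a, indicator_of_mem b, indicator_of_notMem h1,
          indicator_of_mem h2]
        simp
      · have a : y ∉ A := fun h => h1 h.1
        have b : y ∉ B := fun h => h2 h.2
        rw [indicator_of_notMem a, indicator_of_notMem b, indicator_of_notMem h1,
          indicator_of_notMem h2]
        simp
    simp_rw [this]
    rw [lintegral_add_left (measurable_const.indicator hAm), lintegral_indicator hAm,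
      lintegral_indicator hBm]
    simp only [lintegral_const, one_mul, MeasurableSet.univ, Measure.restrict_apply, univ_inter]
    rw [e3, two_mul, defect]
  have r2 : ∫⁻ ξ, ‖𝓕 (ind K - (ind K ∘ fun y => y + v)) ξ‖ₑ ^ 2
      = 2 * ∫⁻ ξ, ENNReal.ofReal (1 - Real.cos (2 * Real.pi * ⟪v, ξ⟫)) * spec K ξ := by
    rw [← lintegral_const_mul]
    · refine lintegral_congr fun ξ => ?_
      rw [fourier_diff hK, enorm_mul, mul_pow, enorm_one_sub_char, spec, mul_assoc]
    · refine Measurable.mul ?_ (measurable_spec hK)
      fun_prop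
  rw [r1, r2] at hP
  have h2 : (2 : ℝ≥0∞) ≠ 0 := by norm_num
  exact ((ENNReal.mul_right_inj h2 (by norm_num)).1 hP).symm

/-- Linear bound for the defect of a convex body. -/
theorem defect_le {K : Set E} (hK : IsCompact K) (hc : Convex ℝ K) (hint : (interior K).Nonempty) :
    ∃ c : ℝ, 0 < c ∧ ∀ v : E, defect K v ≤ ENNReal.ofReal (c * ‖v‖) := by
  obtain ⟨z, hz⟩ := hint
  obtain ⟨ε, hε, hball⟩ := Metric.isOpen_iff.1 isOpen_interior z hz
  have hballK : Metric.ball z ε ⊆ K := hball.trans interior_subset
  set d := Module.finrank ℝ E with hd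
  set V : ℝ := (volume K).toReal with hV
  have hV0 : 0 ≤ V := ENNReal.toReal_nonneg
  have hVK : volume K = ENNReal.ofReal V := (ENNReal.ofReal_toReal hK.measure_lt_top.ne).symm
  refine ⟨(d + 1) * (V + 1) * 2 / ε, by positivity, fun v => ?_⟩
  set t : ℝ := 2 * ‖v‖ / ε with ht
  have ht0 : 0 ≤ t := by positivity
  have hdef : defect K v ≤ volume K := measure_mono fun y hy => hy.1
  rcases lt_or_ge 1 t with h1 | h1
  · refine hdef.trans ?_
    rw [hVK]
    apply ENNReal.ofReal_le_ofReal
    have : (d + 1) * (V + 1) * 2 / ε * ‖v‖ = (d + 1) * (V + 1) * t := by rw [ht]; ring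
    rw [this]
    nlinarith [mul_nonneg (Nat.cast_nonneg (α := ℝ) d) hV0, mul_nonneg hV0 ht0,
      mul_nonneg (mul_nonneg (Nat.cast_nonneg (α := ℝ) d) hV0) ht0,
      mul_nonneg (Nat.cast_nonneg (α := ℝ) d) ht0]
  · -- the homothetic copy
    have hsub : (AffineMap.homothety z (1 - t) '' K) ⊆ K := by
      rintro _ ⟨y, hy, rfl⟩
      rw [AffineMap.homothety_apply]
      have := hc (hballK (Metric.mem_ball_self hε)) hy (a := t) (b := 1 - t) ht0 (by linarith)
        (by ring)
      convert! this using 1
      simp only [vsub_eq_sub, vadd_eq_add, smul_sub, sub_smul, one_smul]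
      abel
    have hsub2 : {y | y ∈ K ∧ v + y ∉ K} ⊆ K \ (AffineMap.homothety z (1 - t) '' K) := by
      rintro y ⟨hy, hvy⟩
      refine ⟨hy, ?_⟩
      rintro ⟨w, hw, rfl⟩
      apply hvy
      rw [AffineMap.homothety_apply]
      rcases eq_or_lt_of_le ht0 with h0 | h0
      · have hv : v = 0 := by
          have : ‖v‖ = 0 := by
            rw [ht] at h0
            have := h0.symm
            rw [div_eq_zero_iff] at this
            rcases this with h | h
            · linarith
            · exact absurd h hε.ne'
          exact norm_eq_zero.1 this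
        rw [hv, ← h0]
        simpa using hw
      · have hmem : z + (1 / t) • v ∈ K := by
          apply hballK
          rw [Metric.mem_ball, dist_eq_norm]
          simp only [add_sub_cancel_left, norm_smul, Real.norm_eq_abs]
          rw [abs_of_pos (by positivity)]
          have : 1 / t * ‖v‖ = ε / 2 := by
            rw [ht]
            have hv : ‖v‖ ≠ 0 := by
              intro hv
              rw [ht, hv] at h0
              simp at h0
            field_simp
          rw [this]
          linarith
        have := hc hmem hw (a := t) (b := 1 - t) ht0 (by linarith) (by ring)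
        convert! this using 1
        rw [smul_add, smul_smul, mul_one_div_cancel h0.ne']
        simp only [vsub_eq_sub, vadd_eq_add, smul_sub, sub_smul, one_smul]
        abel
    have hmeas : NullMeasurableSet (AffineMap.homothety z (1 - t) '' K) volume := by
      have : IsCompact (AffineMap.homothety z (1 - t) '' K) :=
        hK.image (by exact (AffineMap.homothety z (1 - t)).continuous_of_finiteDimensional)
      exact this.isClosed.measurableSet.nullMeasurableSet
    have hfin : volume (AffineMap.homothety z (1 - t) '' K) ≠ ∞ :=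
      ne_top_of_le_ne_top hK.measure_lt_top.ne (measure_mono hsub)
    refine (measure_mono hsub2).trans ?_
    rw [measure_sdiff hsub hmeas hfin, Measure.addHaar_image_homothety, hVK,
      ← ENNReal.ofReal_mul (abs_nonneg _), ← ENNReal.ofReal_sub _ (by positivity)]
    apply ENNReal.ofReal_le_ofReal
    rw [abs_of_nonneg (pow_nonneg (by linarith) _)]
    have hb : 1 - (d : ℝ) * t ≤ (1 - t) ^ d := by
      have := one_add_mul_le_pow (show (-2 : ℝ) ≤ -t by linarith) d
      have e : (1 + -t) = 1 - t := by ring
      rw [e] at this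
      linarith
    have : (d + 1) * (V + 1) * 2 / ε * ‖v‖ = (d + 1) * (V + 1) * t := by rw [ht]; ring
    rw [this]
    nlinarith [mul_nonneg (Nat.cast_nonneg (α := ℝ) d) hV0, mul_nonneg hV0 ht0,
      mul_nonneg (mul_nonneg (Nat.cast_nonneg (α := ℝ) d) hV0) ht0,
      mul_nonneg (Nat.cast_nonneg (α := ℝ) d) ht0, mul_le_mul_of_nonneg_right hb hV0]

end Pool.Agent.W_MP_fd6526_gt
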