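import Mathlib

set_option autoImplicit false

namespace Pool.Agent.W_MP_fd6526_gt

open MeasureTheory Set
open scoped ENNReal

/-- The profile `G(s) = q s^(-q-1) (1 - cos (2 π s))`. -/
noncomputable def prof (q s : ℝ) : ℝ := q * s ^ (-q - 1) * (1 - Real.cos (2 * Real.pi * s))

/-- The constant `∫_0^∞ q s^(-q-1) (1 - cos (2 π s)) ds`. -/
noncomputable def cst (q : ℝ) : ℝ := ∫ s in Ioi (0 : ℝ), prof q s

theorem prof_nonneg {q s : ℝ} (hq : 0 < q) (hs : 0 < s) : 0 ≤ prof q s := by
  have := Real.cos_le_one (2 * Real.pi * s)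
  have h2 : 0 ≤ s ^ (-q - 1) := by positivity
  unfold prof
  have : 0 ≤ 1 - Real.cos (2 * Real.pi * s) := by linarith
  positivity

theorem measurable_prof (q : ℝ) : Measurable (prof q) := by
  unfold prof
  fun_prop

theorem integrableOn_prof {q : ℝ} (hq : 0 < q) (hq1 : q < 1) : IntegrableOn (prof q) (Ioi 0) := by
  have hsplit : Ioi (0 : ℝ) = Ioc 0 1 ∪ Ioi 1 := by
    rw [Ioc_union_Ioi_eq_Ioi zero_le_one]
  rw [hsplit, integrableOn_union]
  constructor
  · have h1 : IntegrableOn (fun s : ℝ => q * (2 * Real.pi) ^ 2 / 2 * s ^ (1 - q)) (Ioc 0 1) := by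
      have := (intervalIntegral.intervalIntegrable_rpow' (a := 0) (b := 1)
        (show -1 < 1 - q by linarith)).const_mul (q * (2 * Real.pi) ^ 2 / 2)
      rwa [intervalIntegrable_iff_integrableOn_Ioc_of_le zero_le_one] at this
    refine Integrable.mono' h1 (measurable_prof q).aestronglyMeasurable ?_
    filter_upwards [self_mem_ae_restrict measurableSet_Ioc] with s hs
    rw [Real.norm_eq_abs, abs_of_nonneg (prof_nonneg hq hs.1)]
    unfold prof
    have h2 : 1 - Real.cos (2 * Real.pi * s) ≤ (2 * Real.pi * s) ^ 2 / 2 := by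
      have := Real.one_sub_sq_div_two_le_cos (x := 2 * Real.pi * s)
      linarith
    have h3 : 0 ≤ q * s ^ (-q - 1) := by
      have : 0 ≤ s ^ (-q - 1) := by have := hs.1; positivity
      positivity
    calc q * s ^ (-q - 1) * (1 - Real.cos (2 * Real.pi * s))
        ≤ q * s ^ (-q - 1) * ((2 * Real.pi * s) ^ 2 / 2) := mul_le_mul_of_nonneg_left h2 h3
      _ = q * (2 * Real.pi) ^ 2 / 2 * (s ^ (-q - 1) * s ^ (2 : ℝ)) := by
          rw [Real.rpow_two]; ring
      _ = q * (2 * Real.pi) ^ 2 / 2 * s ^ (1 - q) := by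
          rw [← Real.rpow_add hs.1]
          congr 2
          ring
  · have h1 : IntegrableOn (fun s : ℝ => 2 * q * s ^ (-q - 1)) (Ioi 1) :=
      (integrableOn_Ioi_rpow_of_lt (by linarith) one_pos).const_mul (2 * q)
    refine Integrable.mono' h1 (measurable_prof q).aestronglyMeasurable ?_
    filter_upwards [self_mem_ae_restrict measurableSet_Ioi] with s hs
    have hs0 : (0 : ℝ) < s := lt_trans one_pos hs
    rw [Real.norm_eq_abs, abs_of_nonneg (prof_nonneg hq hs0)]
    unfold prof
    have h2 : 1 - Real.cos (2 * Real.pi * s) ≤ 2 := by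
      have := Real.neg_one_le_cos (2 * Real.pi * s)
      linarith
    have h3 : 0 ≤ q * s ^ (-q - 1) := by
      have : 0 ≤ s ^ (-q - 1) := by positivity
      positivity
    calc q * s ^ (-q - 1) * (1 - Real.cos (2 * Real.pi * s))
        ≤ q * s ^ (-q - 1) * 2 := mul_le_mul_of_nonneg_left h2 h3
      _ = _ := by ring

theorem kernel_integral {q : ℝ} (hq : 0 < q) (hq1 : q < 1) (t : ℝ) :
    ∫⁻ r in Ioi (0 : ℝ), ENNReal.ofReal (q * r ^ (-q - 1)) *
      ENNReal.ofReal (1 - Real.cos (2 * Real.pi * (r * t)))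
      = ENNReal.ofReal (cst q) * ENNReal.ofReal (|t| ^ q) := by
  have h0 : ∫⁻ r in Ioi (0 : ℝ), ENNReal.ofReal (q * r ^ (-q - 1)) *
      ENNReal.ofReal (1 - Real.cos (2 * Real.pi * (r * t)))
      = ∫⁻ r in Ioi (0 : ℝ), ENNReal.ofReal (q * r ^ (-q - 1) *
        (1 - Real.cos (2 * Real.pi * (r * |t|)))) := by
    refine setLIntegral_congr_fun measurableSet_Ioi fun r hr => ?_
    have hr0 : (0 : ℝ) < r := hr
    rw [← ENNReal.ofReal_mul (by positivity)]
    congr 3
    rcases abs_choice t with h | h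
    · rw [h]
    · rw [h, mul_neg, mul_neg, Real.cos_neg]
  rw [h0]
  rcases eq_or_ne t 0 with ht | ht
  · subst ht
    simp [Real.zero_rpow hq.ne']
  · have ht0 : 0 < |t| := abs_pos.2 ht
    have h1 : ∀ r ∈ Ioi (0 : ℝ), q * r ^ (-q - 1) * (1 - Real.cos (2 * Real.pi * (r * |t|)))
        = |t| ^ (q + 1) * prof q (|t| * r) := by
      intro r hr
      have hr0 : (0 : ℝ) < r := hr
      unfold prof
      rw [Real.mul_rpow ht0.le hr0.le]
      have : |t| ^ (q + 1) * |t| ^ (-q - 1) = 1 := by
        rw [← Real.rpow_add ht0]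
        have : q + 1 + (-q - 1) = 0 := by ring
        rw [this, Real.rpow_zero]
      rw [mul_comm |t| r]
      calc q * r ^ (-q - 1) * (1 - Real.cos (2 * Real.pi * (r * |t|)))
          = (|t| ^ (q + 1) * |t| ^ (-q - 1)) *
            (q * r ^ (-q - 1) * (1 - Real.cos (2 * Real.pi * (r * |t|)))) := by
              rw [this, one_mul]
        _ = _ := by ring
    have h2 : ∫⁻ r in Ioi (0 : ℝ), ENNReal.ofReal (q * r ^ (-q - 1) *
        (1 - Real.cos (2 * Real.pi * (r * |t|))))
        = ∫⁻ r in Ioi (0 : ℝ), ENNReal.ofReal (|t| ^ (q + 1) * prof q (|t| * r)) := by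
      refine setLIntegral_congr_fun measurableSet_Ioi fun r hr => ?_
      rw [h1 r hr]
    rw [h2, ← ofReal_integral_eq_lintegral_ofReal]
    · rw [integral_const_mul, integral_comp_mul_left_Ioi (prof q) 0 ht0, mul_zero,
        ← ENNReal.ofReal_mul]
      · congr 1
        rw [← cst, smul_eq_mul, Real.rpow_add ht0, Real.rpow_one]
        field_simp
      · exact setIntegral_nonneg measurableSet_Ioi fun s hs => prof_nonneg hq hs
    · refine Integrable.const_mul ?_ _
      have := (integrableOn_Ioi_comp_mul_left_iff (prof q) 0 ht0).2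
      rw [mul_zero] at this
      exact this (integrableOn_prof hq hq1)
    · filter_upwards [self_mem_ae_restrict measurableSet_Ioi] with r hr
      have hr0 : (0 : ℝ) < r := hr
      exact mul_nonneg (by positivity) (prof_nonneg hq (mul_pos ht0 hr0))

end Pool.Agent.W_MP_fd6526_gt
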