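import Mathlib
import Pool.Agent.W_MP_fd6526_gt.Defect
import Pool.Agent.W_MP_fd6526_gt.Kernel

set_option autoImplicit false

namespace Pool.Agent.W_MP_fd6526_gt

open MeasureTheory Set FourierTransform
open scoped ENNReal RealInnerProductSpace

variable {E : Type*} [NormedAddCommGroup E] [InnerProductSpace ℝ E] [FiniteDimensional ℝ E]
  [MeasurableSpace E] [BorelSpace E]

/-- Spectral formula for the integrated layer function. -/
theorem lintegral_layer_spec {q : ℝ} (hq : 0 < q) (hq1 : q < 1) {K : Set E} (hK : IsCompact K)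
    (x : E) :
    ∫⁻ y in K, layer q K x y
      = ∫⁻ ξ, ENNReal.ofReal (cst q) * spec K ξ * ENNReal.ofReal (|⟪x, ξ⟫| ^ q) := by
  rw [lintegral_layer q hK x]
  have h1 : ∫⁻ r in Ioi (0 : ℝ), ENNReal.ofReal (q * r ^ (-q - 1)) * defect K (r • x)
      = ∫⁻ r in Ioi (0 : ℝ), ∫⁻ ξ, ENNReal.ofReal (q * r ^ (-q - 1)) *
        (ENNReal.ofReal (1 - Real.cos (2 * Real.pi * (r * ⟪x, ξ⟫))) * spec K ξ) := by
    refine lintegral_congr fun r => ?_
    rw [defect_eq hK, ← lintegral_const_mul]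
    · simp_rw [real_inner_smul_left]
    · refine Measurable.mul ?_ (measurable_spec hK)
      fun_prop
  rw [h1, lintegral_lintegral_swap]
  · refine lintegral_congr fun ξ => ?_
    have h2 : ∫⁻ r in Ioi (0 : ℝ), ENNReal.ofReal (q * r ^ (-q - 1)) *
        (ENNReal.ofReal (1 - Real.cos (2 * Real.pi * (r * ⟪x, ξ⟫))) * spec K ξ)
        = ∫⁻ r in Ioi (0 : ℝ), (ENNReal.ofReal (q * r ^ (-q - 1)) *
          ENNReal.ofReal (1 - Real.cos (2 * Real.pi * (r * ⟪x, ξ⟫)))) * spec K ξ := by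
      refine lintegral_congr fun r => ?_
      rw [← mul_assoc]
    have h3 : Measurable fun r : ℝ => ENNReal.ofReal (q * r ^ (-q - 1)) *
          ENNReal.ofReal (1 - Real.cos (2 * Real.pi * (r * ⟪x, ξ⟫))) := by fun_prop
    rw [h2, lintegral_mul_const _ h3, kernel_integral hq hq1]
    ring
  · refine Measurable.aemeasurable ?_
    have m1 : Measurable fun p : ℝ × E => ENNReal.ofReal (q * p.1 ^ (-q - 1)) := by fun_prop
    have m2 : Measurable fun p : ℝ × E =>
        ENNReal.ofReal (1 - Real.cos (2 * Real.pi * (p.1 * ⟪x, p.2⟫))) := by fun_prop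
    have m3 : Measurable fun p : ℝ × E => spec K p.2 := (measurable_spec hK).comp measurable_snd
    exact m1.mul (m2.mul m3)

/-- Finiteness of the integrated layer function. -/
theorem lintegral_layer_lt_top {q : ℝ} (hq : 0 < q) (hq1 : q < 1) {K : Set E} (hK : IsCompact K)
    (hc : Convex ℝ K) (hint : (interior K).Nonempty) (x : E) :
    ∫⁻ y in K, layer q K x y < ∞ := by
  rw [lintegral_layer q hK x]
  obtain ⟨c, hc0, hcv⟩ := defect_le hK hc hint
  have hsplit : Ioi (0 : ℝ) = Ioc 0 1 ∪ Ioi 1 := by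
    rw [Ioc_union_Ioi_eq_Ioi zero_le_one]
  rw [hsplit]
  refine (lintegral_union_le _ _ _).trans_lt ?_
  refine ENNReal.add_lt_top.2 ⟨?_, ?_⟩
  · have h1 : ∫⁻ r in Ioc (0 : ℝ) 1, ENNReal.ofReal (q * r ^ (-q - 1)) * defect K (r • x)
        ≤ ∫⁻ r in Ioc (0 : ℝ) 1, ENNReal.ofReal (q * c * ‖x‖ * r ^ (-q)) := by
      refine setLIntegral_mono' measurableSet_Ioc fun r hr => ?_
      have hr0 : 0 < r := hr.1
      refine (mul_le_mul_right (hcv (r • x)) _).trans ?_
      rw [← ENNReal.ofReal_mul (by positivity)]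
      apply ENNReal.ofReal_le_ofReal
      rw [norm_smul, Real.norm_eq_abs, abs_of_pos hr0]
      have : r ^ (-q) = r ^ (-q - 1) * r := by
        rw [← Real.rpow_add_one hr0.ne']
        congr 1
        ring
      rw [this]
      exact le_of_eq (by ring)
    refine h1.trans_lt ?_
    have h2 : IntegrableOn (fun r : ℝ => q * c * ‖x‖ * r ^ (-q)) (Ioc 0 1) := by
      have := (intervalIntegral.intervalIntegrable_rpow' (a := 0) (b := 1)
        (show -1 < -q by linarith)).const_mul (q * c * ‖x‖)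
      rwa [intervalIntegrable_iff_integrableOn_Ioc_of_le zero_le_one] at this
    rw [← ofReal_integral_eq_lintegral_ofReal h2]
    · exact ENNReal.ofReal_lt_top
    · filter_upwards [self_mem_ae_restrict measurableSet_Ioc] with r hr
      have hr0 : 0 < r := hr.1
      have := norm_nonneg x
      positivity
  · have h1 : ∫⁻ r in Ioi (1 : ℝ), ENNReal.ofReal (q * r ^ (-q - 1)) * defect K (r • x)
        ≤ ∫⁻ r in Ioi (1 : ℝ), ENNReal.ofReal (q * r ^ (-q - 1)) * volume K := by
      refine lintegral_mono fun r => ?_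
      exact mul_le_mul_right (measure_mono fun y hy => hy.1) _
    refine h1.trans_lt ?_
    rw [lintegral_mul_const _ (by fun_prop)]
    refine ENNReal.mul_lt_top ?_ hK.measure_lt_top
    have h2 : IntegrableOn (fun r : ℝ => q * r ^ (-q - 1)) (Ioi 1) :=
      (integrableOn_Ioi_rpow_of_lt (by linarith) one_pos).const_mul q
    rw [← ofReal_integral_eq_lintegral_ofReal h2]
    · exact ENNReal.ofReal_lt_top
    · filter_upwards [self_mem_ae_restrict measurableSet_Ioi] with r hr
      have hr0 : (0 : ℝ) < r := lt_trans one_pos hr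
      positivity

/-- The density of the spectral measure. -/
noncomputable def dens (q : ℝ) (K : Set E) (ξ : E) : ℝ≥0∞ :=
  ENNReal.ofReal (cst q) * spec K ξ * ENNReal.ofReal (‖ξ‖ ^ q)

theorem measurable_dens (q : ℝ) {K : Set E} (hK : IsCompact K) : Measurable (dens q K) := by
  unfold dens
  refine Measurable.mul ((measurable_spec hK).const_mul _) ?_
  fun_prop

theorem lintegral_dens_lt_top {q : ℝ} (hq : 0 < q) (hq1 : q < 1) {K : Set E} (hK : IsCompact K)
    (hc : Convex ℝ K) (hint : (interior K).Nonempty) :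
    ∫⁻ ξ, dens q K ξ < ∞ := by
  set b := stdOrthonormalBasis ℝ E with hb
  set d := Module.finrank ℝ E with hd
  have h1 : ∀ ξ : E, ENNReal.ofReal (‖ξ‖ ^ q)
      ≤ ENNReal.ofReal ((d : ℝ) ^ q) * ∑ i : Fin d, ENNReal.ofReal (|⟪b i, ξ⟫| ^ q) := by
    intro ξ
    rw [← ENNReal.ofReal_sum_of_nonneg (fun i _ => by positivity),
      ← ENNReal.ofReal_mul (by positivity)]
    apply ENNReal.ofReal_le_ofReal
    rcases Nat.eq_zero_or_pos d with h0 | hpos
    · have hfin : Module.finrank ℝ E = 0 := h0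
      have hsub : Subsingleton E := Module.finrank_zero_iff.1 hfin
      have : ξ = 0 := Subsingleton.elim _ _
      rw [this]
      simp [Real.zero_rpow hq.ne']
    · have : Nonempty (Fin d) := ⟨⟨0, hpos⟩⟩
      obtain ⟨j, hj⟩ := Finite.exists_max fun i : Fin d => |⟪b i, ξ⟫|
      have hnorm : ‖ξ‖ ≤ d * |⟪b j, ξ⟫| := by
        calc ‖ξ‖ = ‖∑ i, ⟪b i, ξ⟫ • b i‖ := by rw [b.sum_repr' ξ]
          _ ≤ ∑ i, ‖⟪b i, ξ⟫ • b i‖ := norm_sum_le _ _
          _ = ∑ i : Fin d, |⟪b i, ξ⟫| := by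
              refine Finset.sum_congr rfl fun i _ => ?_
              rw [norm_smul, b.norm_eq_one, mul_one, Real.norm_eq_abs]
          _ ≤ ∑ _i : Fin d, |⟪b j, ξ⟫| := Finset.sum_le_sum fun i _ => hj i
          _ = d * |⟪b j, ξ⟫| := by simp
      calc ‖ξ‖ ^ q ≤ (d * |⟪b j, ξ⟫|) ^ q :=
            Real.rpow_le_rpow (norm_nonneg _) hnorm hq.le
        _ = (d : ℝ) ^ q * |⟪b j, ξ⟫| ^ q := Real.mul_rpow (by positivity) (abs_nonneg _)
        _ ≤ (d : ℝ) ^ q * ∑ i : Fin d, |⟪b i, ξ⟫| ^ q := by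
            refine mul_le_mul_of_nonneg_left ?_ (by positivity)
            exact Finset.single_le_sum (f := fun i : Fin d => |⟪b i, ξ⟫| ^ q)
              (fun i _ => by positivity) (Finset.mem_univ j)
  have h2 : ∫⁻ ξ, dens q K ξ ≤ ∫⁻ ξ, ENNReal.ofReal ((d : ℝ) ^ q) *
      ∑ i : Fin d, ENNReal.ofReal (cst q) * spec K ξ * ENNReal.ofReal (|⟪b i, ξ⟫| ^ q) := by
    refine lintegral_mono fun ξ => ?_
    calc dens q K ξ ≤ ENNReal.ofReal (cst q) * spec K ξ *
          (ENNReal.ofReal ((d : ℝ) ^ q) * ∑ i : Fin d, ENNReal.ofReal (|⟪b i, ξ⟫| ^ q)) :=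
          mul_le_mul_right (h1 ξ) _
      _ = _ := by
          rw [← Finset.mul_sum]
          ring
  refine h2.trans_lt ?_
  have hmeas : ∀ i : Fin d, Measurable fun ξ : E =>
      ENNReal.ofReal (cst q) * spec K ξ * ENNReal.ofReal (|⟪b i, ξ⟫| ^ q) := by
    intro i
    refine Measurable.mul ((measurable_spec hK).const_mul _) ?_
    fun_prop
  rw [lintegral_const_mul _ (Finset.measurable_sum _ fun i _ => hmeas i),
    lintegral_finsetSum _ fun i _ => hmeas i]
  refine ENNReal.mul_lt_top ENNReal.ofReal_lt_top ?_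
  refine ENNReal.sum_lt_top.2 fun i _ => ?_
  rw [← lintegral_layer_spec hq hq1 hK]
  exact lintegral_layer_lt_top hq hq1 hK hc hint _

/-- Projection to the unit sphere. -/
noncomputable def dir (u₀ : Metric.sphere (0 : E) 1) (ξ : E) : Metric.sphere (0 : E) 1 :=
  open Classical in
  if h : ξ = 0 then u₀ else ⟨‖ξ‖⁻¹ • ξ, by
    rw [mem_sphere_zero_iff_norm, norm_smul, norm_inv, norm_norm,
      inv_mul_cancel₀ (norm_ne_zero_iff.2 h)]⟩

theorem measurable_dir (u₀ : Metric.sphere (0 : E) 1) : Measurable (dir u₀) := by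
  apply Measurable.subtype_mk (f := fun ξ => ((dir u₀ ξ : Metric.sphere (0 : E) 1) : E))
  have : (fun ξ => ((dir u₀ ξ : Metric.sphere (0 : E) 1) : E))
      = fun ξ => open Classical in if ξ = 0 then (u₀ : E) else ‖ξ‖⁻¹ • ξ := by
    funext ξ
    unfold dir
    split_ifs <;> rfl
  rw [this]
  refine Measurable.ite (measurableSet_singleton (0 : E)) measurable_const ?_
  fun_prop

theorem inner_dir (u₀ : Metric.sphere (0 : E) 1) {q : ℝ} (hq : 0 < q) (x ξ : E) :
    ENNReal.ofReal (‖ξ‖ ^ q) * ENNReal.ofReal (|⟪x, (dir u₀ ξ : E)⟫| ^ q)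
      = ENNReal.ofReal (|⟪x, ξ⟫| ^ q) := by
  rw [← ENNReal.ofReal_mul (by positivity)]
  congr 1
  by_cases h : ξ = 0
  · subst h
    simp [Real.zero_rpow hq.ne']
  · have : ((dir u₀ ξ : Metric.sphere (0 : E) 1) : E) = ‖ξ‖⁻¹ • ξ := by
      unfold dir
      rw [dif_neg h]
    rw [this, inner_smul_right, ← Real.mul_rpow (norm_nonneg _) (abs_nonneg _), abs_mul,
      abs_of_nonneg (by positivity), ← mul_assoc, mul_inv_cancel₀ (norm_ne_zero_iff.2 h), one_mul]

/-- The spherical spectral measure. -/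
noncomputable def sphMeas (q : ℝ) (K : Set E) (u₀ : Metric.sphere (0 : E) 1) :
    Measure (Metric.sphere (0 : E) 1) :=
  (volume.withDensity (dens q K)).map (dir u₀)

theorem sphMeas_finite {q : ℝ} (hq : 0 < q) (hq1 : q < 1) {K : Set E} (hK : IsCompact K)
    (hc : Convex ℝ K) (hint : (interior K).Nonempty) (u₀ : Metric.sphere (0 : E) 1) :
    IsFiniteMeasure (sphMeas q K u₀) := by
  constructor
  rw [sphMeas, Measure.map_apply (measurable_dir u₀) MeasurableSet.univ, preimage_univ,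
    withDensity_apply _ MeasurableSet.univ, Measure.restrict_univ]
  exact lintegral_dens_lt_top hq hq1 hK hc hint

theorem lintegral_sphMeas {q : ℝ} (hq : 0 < q) (hq1 : q < 1) {K : Set E} (hK : IsCompact K)
    (u₀ : Metric.sphere (0 : E) 1) (x : E) :
    ∫⁻ u, ENNReal.ofReal (|⟪x, (u : E)⟫| ^ q) ∂(sphMeas q K u₀)
      = ∫⁻ y in K, layer q K x y := by
  have hm : Measurable fun u : Metric.sphere (0 : E) 1 =>
      ENNReal.ofReal (|⟪x, (u : E)⟫| ^ q) := by
    have : Measurable fun u : Metric.sphere (0 : E) 1 => ⟪x, (u : E)⟫ :=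
      measurable_const.inner measurable_subtype_coe
    fun_prop
  have hm2 : Measurable fun ξ : E => ENNReal.ofReal (|⟪x, (dir u₀ ξ : E)⟫| ^ q) :=
    hm.comp (measurable_dir u₀)
  rw [sphMeas, lintegral_map hm (measurable_dir u₀),
    lintegral_withDensity_eq_lintegral_mul _ (measurable_dens q hK) hm2,
    lintegral_layer_spec hq hq1 hK]
  refine lintegral_congr fun ξ => ?_
  simp only [Pi.mul_apply, dens]
  rw [mul_assoc, inner_dir u₀ hq]

end Pool.Agent.W_MP_fd6526_gt
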