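import Mathlib
import Pool.Agent.W_MP_fd6526_gt.Embed

set_option autoImplicit false

namespace Pool.Agent.W_MP_fd6526_gt

open MeasureTheory Set FourierTransform Metric
open scoped ENNReal RealInnerProductSpace

variable {E : Type*} [NormedAddCommGroup E] [InnerProductSpace ℝ E]

section level

/-- Compactness of level bodies of homogeneous functions. -/
theorem level_compact [FiniteDimensional ℝ E] {N : E → ℝ} {q : ℝ} (hq : 0 < q) (hc : Continuous N)
    (hh : ∀ t : ℝ, 0 ≤ t → ∀ x, N (t • x) = t ^ q * N x) (hpos : ∀ x, x ≠ 0 → 0 < N x)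
    (u₀ : sphere (0 : E) 1) : IsCompact {x | N x ≤ 1} := by
  obtain ⟨w, hw, hmin⟩ := (isCompact_sphere (0 : E) 1).exists_isMinOn ⟨u₀, u₀.2⟩ hc.continuousOn
  have hw0 : w ≠ 0 := by
    intro h
    rw [h] at hw
    simp at hw
  have hm : 0 < N w := hpos w hw0
  refine Metric.isCompact_of_isClosed_isBounded (isClosed_le hc continuous_const) ?_
  refine (Metric.isBounded_closedBall (x := (0 : E)) (r := (N w)⁻¹ ^ (1 / q))).subset ?_
  intro x hx
  have hx1 : N x ≤ 1 := hx
  rw [mem_closedBall_zero_iff]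
  by_cases h0 : x = 0
  · rw [h0, norm_zero]; positivity
  have hn : 0 < ‖x‖ := norm_pos_iff.2 h0
  have h1 : N x = ‖x‖ ^ q * N (‖x‖⁻¹ • x) := by
    rw [← hh _ hn.le, smul_smul, mul_inv_cancel₀ hn.ne', one_smul]
  have h2 : N w ≤ N (‖x‖⁻¹ • x) := by
    apply hmin
    show ‖x‖⁻¹ • x ∈ sphere (0 : E) 1
    rw [mem_sphere_zero_iff_norm, norm_smul, norm_inv, norm_norm, inv_mul_cancel₀ hn.ne']
  have h3 : ‖x‖ ^ q ≤ (N w)⁻¹ := by
    have h5 : ‖x‖ ^ q * N w ≤ 1 := by
      calc ‖x‖ ^ q * N w ≤ ‖x‖ ^ q * N (‖x‖⁻¹ • x) :=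
            mul_le_mul_of_nonneg_left h2 (by positivity)
        _ ≤ 1 := by rw [← h1]; exact hx1
    rw [← one_div, le_div_iff₀ hm]
    exact h5
  calc ‖x‖ = (‖x‖ ^ q) ^ (1 / q) := by
        rw [← Real.rpow_mul hn.le, mul_one_div_cancel hq.ne', Real.rpow_one]
    _ ≤ (N w)⁻¹ ^ (1 / q) := Real.rpow_le_rpow (by positivity) h3 (by positivity)

theorem level_radial {N : E → ℝ} {q : ℝ} (hq : 0 < q)
    (hh : ∀ t : ℝ, 0 ≤ t → ∀ x, N (t • x) = t ^ q * N x) (hpos : ∀ x, x ≠ 0 → 0 < N x)
    {x : E} (hx : x ≠ 0) : radialFn {x | N x ≤ 1} x = (N x)⁻¹ ^ (1 / q) := by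
  have hN := hpos x hx
  have : {t : ℝ | 0 ≤ t ∧ t • x ∈ ({x | N x ≤ 1} : Set E)} = Icc 0 ((N x)⁻¹ ^ (1 / q)) := by
    ext t
    constructor
    · rintro ⟨ht, h⟩
      refine ⟨ht, ?_⟩
      have h1 : N (t • x) ≤ 1 := h
      rw [hh t ht] at h1
      have h2 : t ^ q ≤ (N x)⁻¹ := by
        rw [← one_div, le_div_iff₀ hN]; exact h1
      calc t = (t ^ q) ^ (1 / q) := by
            rw [← Real.rpow_mul ht, mul_one_div_cancel hq.ne', Real.rpow_one]
        _ ≤ _ := Real.rpow_le_rpow (by positivity) h2 (by positivity)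
    · rintro ⟨ht, h⟩
      refine ⟨ht, ?_⟩
      show N (t • x) ≤ 1
      rw [hh t ht, ← le_div_iff₀ hN, one_div]
      calc t ^ q ≤ ((N x)⁻¹ ^ (1 / q)) ^ q := Real.rpow_le_rpow ht h hq.le
        _ = (N x)⁻¹ := by
            rw [← Real.rpow_mul (by positivity), one_div_mul_cancel hq.ne', Real.rpow_one]
  rw [radialFn, this, csSup_Icc (by positivity)]

end level

/-- The function `x ↦ ∫ |⟨x,u⟩|^q dμ(u)`. -/
noncomputable def nrm (q : ℝ) [MeasurableSpace E] (μ : Measure (sphere (0 : E) 1)) (x : E) : ℝ :=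
  ∫ u, |⟪x, (u : E)⟫| ^ q ∂μ

variable [FiniteDimensional ℝ E] [MeasurableSpace E] [BorelSpace E]

theorem abs_inner_sphere_le (x : E) (u : sphere (0 : E) 1) : |⟪x, (u : E)⟫| ≤ ‖x‖ := by
  have := abs_real_inner_le_norm x (u : E)
  rwa [norm_eq_of_mem_sphere u, mul_one] at this

theorem measurable_inner_rpow (q : ℝ) (x : E) :
    Measurable fun u : sphere (0 : E) 1 => |⟪x, (u : E)⟫| ^ q := by
  have : Measurable fun u : sphere (0 : E) 1 => ⟪x, (u : E)⟫ :=
    measurable_const.inner measurable_subtype_coe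
  fun_prop

theorem integrable_inner_rpow {q : ℝ} (hq : 0 < q) (μ : Measure (sphere (0 : E) 1))
    [IsFiniteMeasure μ] (x : E) : Integrable (fun u : sphere (0 : E) 1 => |⟪x, (u : E)⟫| ^ q) μ := by
  refine Integrable.mono' (integrable_const (‖x‖ ^ q))
    (measurable_inner_rpow q x).aestronglyMeasurable (Filter.Eventually.of_forall fun u => ?_)
  rw [Real.norm_eq_abs, abs_of_nonneg (by positivity)]
  exact Real.rpow_le_rpow (abs_nonneg _) (abs_inner_sphere_le x u) hq.le

theorem nrm_smul {q : ℝ} (μ : Measure (sphere (0 : E) 1)) (t : ℝ) (ht : 0 ≤ t) (x : E) :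
    nrm q μ (t • x) = t ^ q * nrm q μ x := by
  rw [nrm, nrm, ← integral_const_mul]
  refine integral_congr_ae (Filter.Eventually.of_forall fun u => ?_)
  simp only
  rw [real_inner_smul_left, abs_mul, abs_of_nonneg ht, Real.mul_rpow ht (abs_nonneg _)]

theorem continuous_nrm {q : ℝ} (hq : 0 < q) (μ : Measure (sphere (0 : E) 1))
    [IsFiniteMeasure μ] : Continuous (nrm q μ) := by
  rw [continuous_iff_continuousAt]
  intro x₀
  refine continuousAt_of_dominated (bound := fun _ => (‖x₀‖ + 1) ^ q) ?_ ?_ (integrable_const _) ?_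
  · exact Filter.Eventually.of_forall fun x => (measurable_inner_rpow q x).aestronglyMeasurable
  · filter_upwards [Metric.ball_mem_nhds x₀ one_pos] with x hx
    refine Filter.Eventually.of_forall fun u => ?_
    rw [Real.norm_eq_abs, abs_of_nonneg (by positivity)]
    refine Real.rpow_le_rpow (abs_nonneg _) ((abs_inner_sphere_le x u).trans ?_) hq.le
    have h1 : ‖x - x₀‖ < 1 := by rwa [← mem_ball_iff_norm]
    have h2 : ‖x‖ ≤ ‖x - x₀‖ + ‖x₀‖ := by
      calc ‖x‖ = ‖(x - x₀) + x₀‖ := by simp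
        _ ≤ _ := norm_add_le _ _
    linarith
  · refine Filter.Eventually.of_forall fun u => ?_
    have h1 : Continuous fun x : E => |⟪x, (u : E)⟫| := by fun_prop
    exact (h1.rpow_const fun _ => Or.inr hq.le).continuousAt

theorem nrm_eq_toReal (q : ℝ) (μ : Measure (sphere (0 : E) 1)) (x : E) :
    nrm q μ x = (∫⁻ u, ENNReal.ofReal (|⟪x, (u : E)⟫| ^ q) ∂μ).toReal := by
  rw [nrm, integral_eq_lintegral_of_nonneg_ae]
  · exact Filter.Eventually.of_forall fun u => by positivity
  · exact (measurable_inner_rpow q x).aestronglyMeasurable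

/-- The average of the power of the radial function, as a real number. -/
theorem integral_radial {q : ℝ} (hq : 0 < q) (hq1 : q < 1) {K : Set E} (hK : IsCompact K)
    (hc : Convex ℝ K) (hint : (interior K).Nonempty) {x : E} (hx : x ≠ 0) :
    ∫ y in K, (radialFn {z | z + y ∈ K} x) ^ (-q) = (∫⁻ y in K, layer q K x y).toReal := by
  rw [← integral_toReal (measurable_layer q hK x).aemeasurable
    (ae_lt_top (measurable_layer q hK x) (lintegral_layer_lt_top hq hq1 hK hc hint x).ne)]
  refine integral_congr_ae ?_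
  filter_upwards [ae_interior hK hc] with y hy
  rw [layer_eq hq hK hc hx hy, ENNReal.toReal_ofReal]
  apply Real.rpow_nonneg
  rw [radialFn_translate]
  exact (sSup_times_pos hK hy hx).le

theorem lintegral_layer_pos {q : ℝ} (hq : 0 < q) {K : Set E} (hK : IsCompact K)
    (hc : Convex ℝ K) (hint : (interior K).Nonempty) {x : E} (hx : x ≠ 0) :
    0 < ∫⁻ y in K, layer q K x y := by
  rw [pos_iff_ne_zero]
  intro h
  rw [lintegral_eq_zero_iff (measurable_layer q hK x)] at h
  have h2 : ∀ᵐ y ∂(volume.restrict K), False := by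
    filter_upwards [h, ae_interior hK hc] with y hy hyi
    rw [layer_eq hq hK hc hx hyi] at hy
    have : 0 < (radialFn {z | z + y ∈ K} x) ^ (-q) := by
      apply Real.rpow_pos_of_pos
      rw [radialFn_translate]
      exact sSup_times_pos hK hyi hx
    rw [Pi.zero_apply, ENNReal.ofReal_eq_zero] at hy
    linarith
  have h3 : volume.restrict K = 0 := by
    rw [← Measure.measure_univ_eq_zero]
    rw [ae_iff] at h2
    simpa using h2
  have h4 : volume K = 0 := by
    rw [← Measure.restrict_apply_univ, h3]; simp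
  have h5 : 0 < volume (interior K) := isOpen_interior.measure_pos _ hint
  exact absurd (le_of_le_of_eq (measure_mono interior_subset) h4) (not_le.2 h5)

/-- The normalized spherical measure. -/
noncomputable def sphMeas' (q : ℝ) (K : Set E) (u₀ : sphere (0 : E) 1) :
    Measure (sphere (0 : E) 1) := (volume K)⁻¹ • sphMeas q K u₀

theorem sphMeas'_finite {q : ℝ} (hq : 0 < q) (hq1 : q < 1) {K : Set E} (hK : IsCompact K)
    (hc : Convex ℝ K) (hint : (interior K).Nonempty) (u₀ : sphere (0 : E) 1) :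
    IsFiniteMeasure (sphMeas' q K u₀) := by
  have := sphMeas_finite hq hq1 hK hc hint u₀
  constructor
  rw [sphMeas', Measure.smul_apply, smul_eq_mul]
  refine ENNReal.mul_lt_top ?_ (measure_lt_top _ _)
  rw [ENNReal.inv_lt_top]
  exact lt_of_lt_of_le (isOpen_interior.measure_pos _ hint) (measure_mono interior_subset)

theorem nrm_sphMeas' {q : ℝ} (hq : 0 < q) (hq1 : q < 1) {K : Set E} (hK : IsCompact K)
    (hc : Convex ℝ K) (hint : (interior K).Nonempty) (u₀ : sphere (0 : E) 1) {x : E}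
    (hx : x ≠ 0) :
    nrm q (sphMeas' q K u₀) x
      = (volume.real K)⁻¹ * ∫ y in K, (radialFn {z | z + y ∈ K} x) ^ (-q) := by
  rw [nrm_eq_toReal, sphMeas', lintegral_smul_measure, smul_eq_mul, ENNReal.toReal_mul,
    lintegral_sphMeas hq hq1 hK, integral_radial hq hq1 hK hc hint hx, ENNReal.toReal_inv]
  rfl

theorem nrm_sphMeas'_pos {q : ℝ} (hq : 0 < q) (hq1 : q < 1) {K : Set E} (hK : IsCompact K)
    (hc : Convex ℝ K) (hint : (interior K).Nonempty) (u₀ : sphere (0 : E) 1) {x : E}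
    (hx : x ≠ 0) : 0 < nrm q (sphMeas' q K u₀) x := by
  rw [nrm_sphMeas' hq hq1 hK hc hint u₀ hx, integral_radial hq hq1 hK hc hint hx]
  have h1 : 0 < volume.real K := by
    rw [Measure.real, ENNReal.toReal_pos_iff]
    exact ⟨lt_of_lt_of_le (isOpen_interior.measure_pos _ hint) (measure_mono interior_subset),
      hK.measure_lt_top⟩
  have h2 : 0 < (∫⁻ y in K, layer q K x y).toReal :=
    ENNReal.toReal_pos (lintegral_layer_pos hq hK hc hint hx).ne'
      (lintegral_layer_lt_top hq hq1 hK hc hint x).ne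
  positivity

end Pool.Agent.W_MP_fd6526_gt
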