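import Mathlib
import Pool.Agent.W_MP_fd6526_gt.Body

set_option autoImplicit false

namespace Pool.Agent.W_MP_fd6526_gt

open MeasureTheory Set FourierTransform Metric SchwartzMap
open scoped ENNReal RealInnerProductSpace

variable {E : Type*} [NormedAddCommGroup E] [InnerProductSpace ℝ E] [FiniteDimensional ℝ E]
  [MeasurableSpace E] [BorelSpace E]

/-- The measure on `E × ℝ` with density `|hat 1_K|^2 ⊗ q r^(-q-1) 1_{r>0}`. -/
noncomputable def kap (q : ℝ) (K : Set E) : Measure (E × ℝ) :=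
  ((volume : Measure E).withDensity (spec K)).prod
    (((volume : Measure ℝ).restrict (Ioi 0)).withDensity fun r => ENNReal.ofReal (q * r ^ (-q - 1)))

instance (q : ℝ) (K : Set E) : SFinite (kap q K) := by
  unfold kap
  infer_instance

theorem measurable_h (x : E) :
    Measurable fun z : E × ℝ => 1 - Real.cos (2 * Real.pi * (z.2 * ⟪x, z.1⟫)) := by
  fun_prop

theorem lintegral_kap {q : ℝ} (hq : 0 < q) (hq1 : q < 1) {K : Set E} (hK : IsCompact K) (x : E) :
    ∫⁻ z, ENNReal.ofReal (1 - Real.cos (2 * Real.pi * (z.2 * ⟪x, z.1⟫))) ∂(kap q K)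
      = ∫⁻ y in K, layer q K x y := by
  have hm := (measurable_h (E := E) x).ennreal_ofReal
  rw [kap, lintegral_prod _ hm.aemeasurable, lintegral_layer_spec hq hq1 hK]
  have h1 : ∀ ξ : E, ∫⁻ r, ENNReal.ofReal (1 - Real.cos (2 * Real.pi * (r * ⟪x, ξ⟫)))
      ∂(((volume : Measure ℝ).restrict (Ioi 0)).withDensity
        fun r => ENNReal.ofReal (q * r ^ (-q - 1)))
      = ENNReal.ofReal (cst q) * ENNReal.ofReal (|⟪x, ξ⟫| ^ q) := by
    intro ξ
    rw [← kernel_integral hq hq1, lintegral_withDensity_eq_lintegral_mul _ (by fun_prop)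
      (by fun_prop)]
    rfl
  simp only [h1]
  rw [lintegral_withDensity_eq_lintegral_mul _ (measurable_spec hK) (by fun_prop)]
  refine lintegral_congr fun ξ => ?_
  simp only [Pi.mul_apply]
  ring

/-- Value of the oscillating integral against the Fourier transform of a Schwartz function. -/
theorem inner_integral (φ : 𝓢(E, ℂ)) (r : ℝ) (ξ : E) :
    ∫ x, ((1 - Real.cos (2 * Real.pi * (r * ⟪x, ξ⟫)) : ℝ) : ℂ) * 𝓕 φ x
      = φ 0 - (φ (r • ξ) + φ (-(r • ξ))) / 2 := by
  have hinv : ∀ w : E, ∫ x, Complex.exp ((↑(2 * Real.pi * ⟪x, w⟫) * Complex.I)) * 𝓕 φ x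
      = φ w := by
    intro w
    have h1 : (𝓕⁻ (𝓕 φ)) w = φ w := by rw [fourierInv_fourier_eq]
    rw [← h1, SchwartzMap.fourierInv_coe, Real.fourierInv_eq']
    rfl
  have hint : ∀ w : E, Integrable
      (fun x => Complex.exp ((↑(2 * Real.pi * ⟪x, w⟫) * Complex.I)) * 𝓕 φ x) := by
    intro w
    refine Integrable.mono (𝓕 φ).integrable ?_ (Filter.Eventually.of_forall fun x => ?_)
    · refine Continuous.aestronglyMeasurable ?_
      have := (𝓕 φ).continuous
      fun_prop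
    · rw [norm_mul, Complex.norm_exp_ofReal_mul_I, one_mul]
  have hsum : ∀ x : E, ((1 - Real.cos (2 * Real.pi * (r * ⟪x, ξ⟫)) : ℝ) : ℂ) * 𝓕 φ x
      = Complex.exp ((↑(2 * Real.pi * ⟪x, (0 : E)⟫) * Complex.I)) * 𝓕 φ x
        - ((1 / 2 : ℂ) * (Complex.exp ((↑(2 * Real.pi * ⟪x, r • ξ⟫) * Complex.I)) * 𝓕 φ x)
        + (1 / 2 : ℂ) * (Complex.exp ((↑(2 * Real.pi * ⟪x, -(r • ξ)⟫) * Complex.I)) * 𝓕 φ x)) := by
    intro x
    rw [inner_zero_right, inner_neg_right, real_inner_smul_right, mul_neg]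
    push_cast
    rw [Complex.cos]
    simp only [mul_zero, zero_mul, Complex.exp_zero, neg_mul]
    ring
  simp_rw [hsum]
  have i1 := (hint (r • ξ)).const_mul (1 / 2 : ℂ)
  have i2 := (hint (-(r • ξ))).const_mul (1 / 2 : ℂ)
  have i3 : Integrable (fun x : E =>
      (1 / 2 : ℂ) * (Complex.exp ((↑(2 * Real.pi * ⟪x, r • ξ⟫) * Complex.I)) * 𝓕 φ x)
        + (1 / 2 : ℂ) * (Complex.exp ((↑(2 * Real.pi * ⟪x, -(r • ξ)⟫) * Complex.I)) * 𝓕 φ x)) :=
    i1.add i2
  rw [integral_sub (hint 0) i3, integral_add i1 i2, integral_const_mul,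
    integral_const_mul, hinv, hinv, hinv]
  ring

theorem integrable_kernel {q : ℝ} (hq : 0 < q) (hq1 : q < 1) {K : Set E} (hK : IsCompact K)
    (hc : Convex ℝ K) (hint : (interior K).Nonempty) (u₀ : sphere (0 : E) 1) (ψ : 𝓢(E, ℂ)) :
    Integrable (fun p : E × (E × ℝ) =>
      ((1 - Real.cos (2 * Real.pi * (p.2.2 * ⟪p.1, p.2.1⟫)) : ℝ) : ℂ) * ψ p.1)
      ((volume : Measure E).prod (kap q K)) := by
  have hmeas : Measurable (fun p : E × (E × ℝ) =>
      ((1 - Real.cos (2 * Real.pi * (p.2.2 * ⟪p.1, p.2.1⟫)) : ℝ) : ℂ) * ψ p.1) := by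
    have h1 : Measurable fun p : E × (E × ℝ) =>
        1 - Real.cos (2 * Real.pi * (p.2.2 * ⟪p.1, p.2.1⟫)) := by fun_prop
    have h2 : Measurable fun p : E × (E × ℝ) => ψ p.1 := ψ.continuous.measurable.comp measurable_fst
    exact (Complex.measurable_ofReal.comp h1).mul h2
  refine ⟨hmeas.aestronglyMeasurable, ?_⟩
  rw [hasFiniteIntegral_iff_enorm, lintegral_prod _ hmeas.enorm.aemeasurable]
  have h1 : ∀ x : E, ∫⁻ z : E × ℝ,
      ‖((1 - Real.cos (2 * Real.pi * (z.2 * ⟪x, z.1⟫)) : ℝ) : ℂ) * ψ x‖ₑ ∂(kap q K)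
      = (∫⁻ y in K, layer q K x y) * ‖ψ x‖ₑ := by
    intro x
    rw [← lintegral_kap hq hq1 hK, ← lintegral_mul_const _ (measurable_h x).ennreal_ofReal]
    refine lintegral_congr fun z => ?_
    rw [enorm_mul]
    congr 1
    have h0 : 0 ≤ 1 - Real.cos (2 * Real.pi * (z.2 * ⟪x, z.1⟫)) := by
      have := Real.cos_le_one (2 * Real.pi * (z.2 * ⟪x, z.1⟫))
      linarith
    rw [← ofReal_norm, Complex.norm_real, Real.norm_eq_abs, abs_of_nonneg h0]
  simp only [h1]
  have hfin := sphMeas_finite hq hq1 hK hc hint u₀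
  set B : ℝ≥0∞ := sphMeas q K u₀ univ with hB
  have hBt : B < ∞ := measure_lt_top _ _
  have h2 : ∀ x : E, (∫⁻ y in K, layer q K x y) ≤ ENNReal.ofReal (1 + ‖x‖) * B := by
    intro x
    rw [← lintegral_sphMeas hq hq1 hK u₀]
    calc ∫⁻ u, ENNReal.ofReal (|⟪x, (u : E)⟫| ^ q) ∂(sphMeas q K u₀)
        ≤ ∫⁻ _u, ENNReal.ofReal (1 + ‖x‖) ∂(sphMeas q K u₀) := by
          refine lintegral_mono fun u => ENNReal.ofReal_le_ofReal ?_
          have h3 : |⟪x, (u : E)⟫| ≤ 1 + ‖x‖ := by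
            have := abs_inner_sphere_le x u
            linarith
          calc |⟪x, (u : E)⟫| ^ q ≤ (1 + ‖x‖) ^ q := Real.rpow_le_rpow (abs_nonneg _) h3 hq.le
            _ ≤ (1 + ‖x‖) ^ (1 : ℝ) :=
                Real.rpow_le_rpow_of_exponent_le (by linarith [norm_nonneg x]) hq1.le
            _ = 1 + ‖x‖ := Real.rpow_one _
      _ = _ := by rw [lintegral_const]
  calc ∫⁻ x, (∫⁻ y in K, layer q K x y) * ‖ψ x‖ₑ
      ≤ ∫⁻ x, B * (ENNReal.ofReal ((1 + ‖x‖) * ‖ψ x‖)) := by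
        refine lintegral_mono fun x => ?_
        rw [ENNReal.ofReal_mul (by positivity), ofReal_norm]
        calc (∫⁻ y in K, layer q K x y) * ‖ψ x‖ₑ
            ≤ (ENNReal.ofReal (1 + ‖x‖) * B) * ‖ψ x‖ₑ := by gcongr; exact h2 x
          _ = _ := by ring
    _ = B * ∫⁻ x, ENNReal.ofReal ((1 + ‖x‖) * ‖ψ x‖) := by
        rw [lintegral_const_mul]
        have := ψ.continuous.measurable
        fun_prop
    _ < ∞ := by
        refine ENNReal.mul_lt_top hBt ?_
        have hI : Integrable fun x : E => (1 + ‖x‖) * ‖ψ x‖ := by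
          have h0 := ψ.integrable_pow_mul (volume : Measure E) 0
          have h1 := ψ.integrable_pow_mul (volume : Measure E) 1
          refine (h0.add h1).congr (Filter.Eventually.of_forall fun x => ?_)
          simp only [Pi.add_apply, pow_zero, pow_one]
          ring
        rw [← ofReal_integral_eq_lintegral_ofReal hI
          (Filter.Eventually.of_forall fun x => by positivity)]
        exact ENNReal.ofReal_lt_top

/-- The Fourier transform of the layer function is nonpositive away from the origin. -/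
theorem integral_layer_fourier {q : ℝ} (hq : 0 < q) (hq1 : q < 1) {K : Set E} (hK : IsCompact K)
    (hc : Convex ℝ K) (hint : (interior K).Nonempty) (u₀ : sphere (0 : E) 1) (φ : 𝓢(E, ℂ))
    (hre : ∀ ξ, 0 ≤ (φ ξ).re) (him : ∀ ξ, (φ ξ).im = 0) (h0 : φ 0 = 0) :
    ∃ c : ℝ, c ≤ 0 ∧ ∫ x, (((∫⁻ y in K, layer q K x y).toReal : ℝ) : ℂ) * 𝓕 φ x = (c : ℂ) := by
  have hswap := integral_integral_swap (f := fun (x : E) (z : E × ℝ) =>
      ((1 - Real.cos (2 * Real.pi * (z.2 * ⟪x, z.1⟫)) : ℝ) : ℂ) * 𝓕 φ x)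
    (μ := (volume : Measure E)) (ν := kap q K)
    (integrable_kernel hq hq1 hK hc hint u₀ (𝓕 φ))
  have h1 : ∀ x : E, ∫ z : E × ℝ,
      ((1 - Real.cos (2 * Real.pi * (z.2 * ⟪x, z.1⟫)) : ℝ) : ℂ) * 𝓕 φ x ∂(kap q K)
      = (((∫⁻ y in K, layer q K x y).toReal : ℝ) : ℂ) * 𝓕 φ x := by
    intro x
    rw [integral_mul_const, integral_complex_ofReal, ← lintegral_kap hq hq1 hK,
      integral_eq_lintegral_of_nonneg_ae]
    · refine Filter.Eventually.of_forall fun z => ?_
      have := Real.cos_le_one (2 * Real.pi * (z.2 * ⟪x, z.1⟫))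
      simp only [Pi.zero_apply]
      linarith
    · exact (measurable_h x).aestronglyMeasurable
  simp only [h1] at hswap
  rw [hswap]
  refine ⟨∫ z : E × ℝ, -(((φ (z.2 • z.1)).re + (φ (-(z.2 • z.1))).re) / 2) ∂(kap q K), ?_, ?_⟩
  · refine integral_nonpos fun z => ?_
    have a := hre (z.2 • z.1)
    have b := hre (-(z.2 • z.1))
    simp only [Pi.zero_apply]
    linarith
  · rw [← integral_complex_ofReal]
    refine integral_congr_ae (Filter.Eventually.of_forall fun z => ?_)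
    simp only
    rw [inner_integral, h0]
    have a : φ (z.2 • z.1) = (((φ (z.2 • z.1)).re : ℝ) : ℂ) :=
      Complex.ext (by simp) (by simp [him])
    have b : φ (-(z.2 • z.1)) = (((φ (-(z.2 • z.1))).re : ℝ) : ℂ) :=
      Complex.ext (by simp) (by simp [him])
    push_cast
    rw [← a, ← b]
    ring

end Pool.Agent.W_MP_fd6526_gt
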