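import Mathlib
import Pool.Agent.W_MP_fd6526_gt.Positive

set_option autoImplicit false

namespace Pool.Agent.W_MP_fd6526_gt

open MeasureTheory Set FourierTransform Metric SchwartzMap
open scoped ENNReal RealInnerProductSpace Pointwise

variable {E : Type*} [NormedAddCommGroup E] [InnerProductSpace ℝ E]

theorem radialFn_smul (M : Set E) {s : ℝ} (hs : 0 < s) (y : E) :
    radialFn M (s • y) = s⁻¹ * radialFn M y := by
  have h : {t : ℝ | 0 ≤ t ∧ t • (s • y) ∈ M} = s⁻¹ • {t : ℝ | 0 ≤ t ∧ t • y ∈ M} := by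
    ext t
    rw [Set.mem_smul_set]
    constructor
    · rintro ⟨h1, h2⟩
      refine ⟨s * t, ⟨by positivity, ?_⟩, ?_⟩
      · rw [mul_comm, mul_smul]; exact h2
      · rw [smul_eq_mul, ← mul_assoc, inv_mul_cancel₀ hs.ne', one_mul]
    · rintro ⟨r, ⟨h1, h2⟩, rfl⟩
      refine ⟨?_, ?_⟩
      · simp only [smul_eq_mul]; positivity
      · rw [smul_smul, smul_eq_mul, mul_assoc, mul_comm r s, ← mul_assoc,
          inv_mul_cancel₀ hs.ne', one_mul]
        exact h2
  rw [radialFn, h, Real.sSup_smul_of_nonneg (by positivity), smul_eq_mul, radialFn]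

theorem radialFn_normalize (M : Set E) {x : E} (hx : x ≠ 0) :
    radialFn M x = ‖x‖⁻¹ * radialFn M (‖x‖⁻¹ • x) := by
  have hn : 0 < ‖x‖ := norm_pos_iff.2 hx
  rw [← radialFn_smul M hn, smul_smul, mul_inv_cancel₀ hn.ne', one_smul]

theorem mem_iff_one_le_radialFn {M : Set E} (hM : IsCompact M) (hs : StarConvex ℝ 0 M)
    (h0 : (0 : E) ∈ M) {x : E} (hx : x ≠ 0) : x ∈ M ↔ 1 ≤ radialFn M x := by
  have hb : BddAbove {t : ℝ | 0 ≤ t ∧ t • x ∈ M} := by
    have := times_bddAbove hM (0 : E) hx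
    simpa [times] using this
  constructor
  · intro h
    exact le_csSup hb ⟨zero_le_one, by simpa using h⟩
  · intro h
    have hcl : IsClosed {t : ℝ | 0 ≤ t ∧ t • x ∈ M} := by
      have := times_closed hM (0 : E) x
      simpa [times] using this
    have hmem : radialFn M x ∈ {t : ℝ | 0 ≤ t ∧ t • x ∈ M} :=
      hcl.csSup_mem ⟨0, le_rfl, by simpa using h0⟩ hb
    have h1 := hs.smul_mem hmem.2 (t := (radialFn M x)⁻¹) (by positivity)
      (inv_le_one_of_one_le₀ h)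
    rwa [smul_smul, inv_mul_cancel₀ (by positivity), one_smul] at h1

variable [FiniteDimensional ℝ E] [MeasurableSpace E] [BorelSpace E]

theorem nrm_sphMeas'_eq {q : ℝ} (hq : 0 < q) (hq1 : q < 1) {K : Set E} (hK : IsCompact K)
    (u₀ : sphere (0 : E) 1) (x : E) :
    nrm q (sphMeas' q K u₀) x = (volume.real K)⁻¹ * (∫⁻ y in K, layer q K x y).toReal := by
  rw [nrm_eq_toReal, sphMeas', lintegral_smul_measure, smul_eq_mul, ENNReal.toReal_mul,
    lintegral_sphMeas hq hq1 hK, ENNReal.toReal_inv]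
  rfl

theorem nrm_le {q : ℝ} (hq : 0 < q) (hq1 : q < 1) (μ : Measure (sphere (0 : E) 1))
    [IsFiniteMeasure μ] (x : E) : nrm q μ x ≤ (1 + ‖x‖) * μ.real univ := by
  calc nrm q μ x ≤ ∫ _u, (1 + ‖x‖) ∂μ := by
        refine integral_mono (integrable_inner_rpow hq μ x) (integrable_const _) fun u => ?_
        have h3 : |⟪x, (u : E)⟫| ≤ 1 + ‖x‖ := by
          have := abs_inner_sphere_le x u
          linarith
        calc |⟪x, (u : E)⟫| ^ q ≤ (1 + ‖x‖) ^ q := Real.rpow_le_rpow (abs_nonneg _) h3 hq.le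
          _ ≤ (1 + ‖x‖) ^ (1 : ℝ) :=
              Real.rpow_le_rpow_of_exponent_le (by linarith [norm_nonneg x]) hq1.le
          _ = 1 + ‖x‖ := Real.rpow_one _
    _ = _ := by rw [integral_const, smul_eq_mul, mul_comm]

theorem nrm_nonneg (q : ℝ) (μ : Measure (sphere (0 : E) 1)) (x : E) : 0 ≤ nrm q μ x :=
  integral_nonneg fun u => by positivity

theorem integrable_nrm_mul {q : ℝ} (hq : 0 < q) (hq1 : q < 1) (μ : Measure (sphere (0 : E) 1))
    [IsFiniteMeasure μ] (ψ : 𝓢(E, ℂ)) :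
    Integrable fun x : E => ((nrm q μ x : ℝ) : ℂ) * ψ x := by
  have hI : Integrable fun x : E => μ.real univ * ((1 + ‖x‖) * ‖ψ x‖) := by
    have h0 := ψ.integrable_pow_mul (volume : Measure E) 0
    have h1 := ψ.integrable_pow_mul (volume : Measure E) 1
    refine Integrable.const_mul ?_ _
    refine (h0.add h1).congr (Filter.Eventually.of_forall fun x => ?_)
    simp only [Pi.add_apply, pow_zero, pow_one]
    ring
  refine Integrable.mono' hI ?_ (Filter.Eventually.of_forall fun x => ?_)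
  · refine Continuous.aestronglyMeasurable ?_
    have h1 := continuous_nrm hq μ
    have h2 := ψ.continuous
    fun_prop
  · rw [norm_mul, Complex.norm_real, Real.norm_eq_abs, abs_of_nonneg (nrm_nonneg q μ x),
      ← mul_assoc, mul_comm (μ.real univ)]
    exact mul_le_mul_of_nonneg_right (nrm_le hq hq1 μ x) (norm_nonneg _)

theorem gamma_neg {s : ℝ} (h1 : -1 < s) (h2 : s < 0) : Real.Gamma s < 0 := by
  have h := Real.Gamma_add_one h2.ne
  have hp : 0 < Real.Gamma (s + 1) := Real.Gamma_pos_of_pos (by linarith)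
  rw [h] at hp
  by_contra hcon
  push Not at hcon
  have : s * Real.Gamma s ≤ 0 := mul_nonpos_of_nonpos_of_nonneg h2.le hcon
  linarith

/-- The problem's Fourier transform in terms of Mathlib's. -/
theorem hat_eq (φ : 𝓢(E, ℂ)) (x : E) :
    ∫ ξ, φ ξ * Complex.exp (-(Complex.I * ((⟪ξ, x⟫ : ℝ) : ℂ))) = 𝓕 φ ((2 * Real.pi)⁻¹ • x) := by
  rw [SchwartzMap.fourier_coe, Real.fourier_eq']
  refine integral_congr_ae (Filter.Eventually.of_forall fun ξ => ?_)
  simp only
  rw [real_inner_smul_right, smul_eq_mul, mul_comm (φ ξ)]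
  congr 2
  have : -2 * Real.pi * ((2 * Real.pi)⁻¹ * ⟪ξ, x⟫) = -⟪ξ, x⟫ := by
    have := Real.pi_ne_zero
    field_simp
  rw [this]
  push_cast
  ring

theorem posdef_core {q : ℝ} (hq : 0 < q) (hq1 : q < 1) {K : Set E} (hK : IsCompact K)
    (hc : Convex ℝ K) (hint : (interior K).Nonempty) (u₀ : sphere (0 : E) 1) (φ : 𝓢(E, ℂ))
    (hre : ∀ ξ, 0 ≤ (φ ξ).re) (him : ∀ ξ, (φ ξ).im = 0) (h0 : φ 0 = 0) :
    Integrable (fun x : E => ((nrm q (sphMeas' q K u₀) x : ℝ) : ℂ) *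
      𝓕 φ ((2 * Real.pi)⁻¹ • x)) ∧
    ∃ c : ℝ, c ≤ 0 ∧ ∫ x : E, ((nrm q (sphMeas' q K u₀) x : ℝ) : ℂ) *
      𝓕 φ ((2 * Real.pi)⁻¹ • x) = (c : ℂ) := by
  have hfin := sphMeas'_finite hq hq1 hK hc hint u₀
  set μ := sphMeas' q K u₀ with hμ
  have hpi : (0 : ℝ) < 2 * Real.pi := by positivity
  have hscale : ∀ x : E, nrm q μ x = (2 * Real.pi) ^ q * nrm q μ ((2 * Real.pi)⁻¹ • x) := by
    intro x
    rw [← nrm_smul μ _ hpi.le, smul_smul, mul_inv_cancel₀ hpi.ne', one_smul]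
  have hfun : (fun x : E => ((nrm q μ x : ℝ) : ℂ) * 𝓕 φ ((2 * Real.pi)⁻¹ • x))
      = fun x : E => (fun y : E => (((2 * Real.pi) ^ q : ℝ) : ℂ) *
        (((nrm q μ y : ℝ) : ℂ) * 𝓕 φ y)) ((2 * Real.pi)⁻¹ • x) := by
    funext x
    simp only
    rw [hscale x]
    push_cast
    ring
  have hI := integrable_nrm_mul hq hq1 μ (𝓕 φ)
  obtain ⟨c, hc0, hcc⟩ := integral_layer_fourier hq hq1 hK hc hint u₀ φ hre him h0
  constructor
  · rw [hfun]
    exact (hI.const_mul _).comp_smul (inv_ne_zero hpi.ne')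
  · rw [hfun]
    rw [Measure.integral_comp_smul (volume : Measure E) (fun y : E => (((2 * Real.pi) ^ q : ℝ) : ℂ) *
        (((nrm q μ y : ℝ) : ℂ) * 𝓕 φ y)) ((2 * Real.pi)⁻¹), integral_const_mul]
    have h3 : ∫ x : E, ((nrm q μ x : ℝ) : ℂ) * 𝓕 φ x
        = (((volume.real K)⁻¹ * c : ℝ) : ℂ) := by
      have : ∀ x : E, ((nrm q μ x : ℝ) : ℂ) * 𝓕 φ x = (((volume.real K)⁻¹ : ℝ) : ℂ) *
          ((((∫⁻ y in K, layer q K x y).toReal : ℝ) : ℂ) * 𝓕 φ x) := by
        intro x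
        rw [hμ, nrm_sphMeas'_eq hq hq1 hK]
        push_cast
        ring
      simp_rw [this]
      rw [integral_const_mul, hcc]
      push_cast
      ring
    rw [h3]
    refine ⟨|(((2 * Real.pi)⁻¹) ^ Module.finrank ℝ E)⁻¹| * ((2 * Real.pi) ^ q *
      ((volume.real K)⁻¹ * c)), ?_, ?_⟩
    · have a1 : 0 ≤ |(((2 * Real.pi)⁻¹) ^ Module.finrank ℝ E)⁻¹| := abs_nonneg _
      have a2 : 0 ≤ (2 * Real.pi) ^ q := by positivity
      have a3 : 0 ≤ (volume.real K)⁻¹ := by positivity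
      have a4 := mul_nonpos_of_nonneg_of_nonpos a3 hc0
      exact mul_nonpos_of_nonneg_of_nonpos a1 (mul_nonpos_of_nonneg_of_nonpos a2 a4)
    · rw [Complex.real_smul]
      push_cast
      ring

end Pool.Agent.W_MP_fd6526_gt
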